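import Pool.Agent.W734.STB.Stms
import Pool.Agent.W891.TWB.Sumk
import Pool.Agent.W496.TWB.Core

/-!
# Project STB, part STAB: stability for `β < 1/3`
-/

set_option autoImplicit false

noncomputable section

namespace Pool.Agent.W699.STB

open MeasureTheory Set Filter Metric
open Pool.Agent.W734.TWB Pool.Agent.W734.STB
open Pool.Agent.W891.TWB (EJ EJ_int EJ_nonneg EJ_super eJ eJ_univ intOn)
open Pool.Agent.W496.TWB (int_wF int_kin int_pair int_trip int_en meas_reg)

lemma wt_one {N : ℕ} (x : Cfg N) : wt (fun _ => (1 : ℝ)) x = 1 := by simp [wt]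

lemma pairJ_zero {N : ℕ} (J : Finset (Fin N)) (x : Cfg N) : pairJ J (fun _ => 0) x = 0 := by
  simp [pairJ]

lemma pairS_zero {N : ℕ} (x : Cfg N) : pairS (fun _ => 0) x = 0 := by
  simp [pairS]

/-- the energy of the particles in `J` -/
lemma EJ_eq {N : ℕ} (v : E3 × E3 → ℝ) (l : ℝ) (k : Fin N → (Fin 3 → ℤ)) (F : Cfg N → ℂ)
    (J : Finset (Fin N)) : EJ (fun _ => 1) (fun _ => 0) v l k F J =
      ∫ x in reg l k, (kinJ J F x + tripJ J v x * ‖F x‖ ^ 2) := by
  unfold EJ eJ
  congr 1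
  funext x
  rw [wt_one, pairJ_zero]
  ring

/-- sum over the boxes -/
lemma EJ_sum {N : ℕ} {v : E3 × E3 → ℝ} (hwv : PotOK (fun _ => 0) v) (l : ℝ)
    (k : Fin N → (Fin 3 → ℤ)) {F : Cfg N → ℂ} (hF : ContDiff ℝ 1 F) :
    ∑ α ∈ Finset.univ.image k,
      EJ (fun _ => 1) (fun _ => 0) v l k F (Finset.univ.filter (fun i => k i = α)) ≤
    EJ (fun _ => 1) (fun _ => 0) v l k F Finset.univ := by
  classical
  have hφ : Continuous (fun _ : E3 => (1 : ℝ)) := continuous_const
  have hsum : ∀ s : Finset (Fin 3 → ℤ),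
      ∑ α ∈ s, EJ (fun _ => 1) (fun _ => 0) v l k F (Finset.univ.filter (fun i => k i = α)) ≤
        EJ (fun _ => 1) (fun _ => 0) v l k F (Finset.univ.filter (fun i => k i ∈ s)) := by
    intro s
    induction s using Finset.induction_on with
    | empty =>
      rw [Finset.sum_empty]
      exact EJ_nonneg hwv l k _
    | insert α s hα ih =>
      rw [Finset.sum_insert hα]
      refine (add_le_add le_rfl ih).trans ?_
      apply EJ_super hφ hwv l k hF
      · rw [Finset.disjoint_left]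
        intro i hi hi2
        rw [Finset.mem_filter] at hi hi2
        exact hα (hi.2 ▸ hi2.2)
      · intro i hi
        rw [Finset.mem_filter] at hi ⊢
        exact ⟨hi.1, Finset.mem_insert.2 (Or.inl hi.2)⟩
      · intro i hi
        rw [Finset.mem_filter] at hi ⊢
        exact ⟨hi.1, Finset.mem_insert.2 (Or.inr hi.2)⟩
  refine (hsum _).trans (le_of_eq ?_)
  congr 1
  ext i
  simp

/-- the pair potential is bounded below by the number of close pairs -/
lemma pair_low {β A R : ℝ} {N : ℕ} (hN : 1 ≤ N) {W : E3 → ℝ} (hA0 : 0 ≤ A)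
    (hA : ∀ x, -A ≤ W x) (hR : ∀ x, R < ‖x‖ → W x = 0) (x : Cfg N) :
    -(A * (N : ℝ) ^ (3 * β - 1) * (∑ i : Fin N, ∑ j ∈ Finset.Ioi i,
      (if ‖x i - x j‖ ≤ R * (N : ℝ) ^ (-β) then (1 : ℝ) else 0))) ≤ pairS (Wb β N W) x := by
  have hN0 : (0 : ℝ) < N := by exact_mod_cast hN
  have hp : (0 : ℝ) < (N : ℝ) ^ (3 * β - 1) := Real.rpow_pos_of_pos hN0 _
  unfold pairS
  rw [Finset.mul_sum, ← Finset.sum_neg_distrib]
  refine Finset.sum_le_sum fun i _ => ?_
  rw [Finset.mul_sum, ← Finset.sum_neg_distrib]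
  refine Finset.sum_le_sum fun j _ => ?_
  unfold Wb
  split_ifs with h
  · have h1 := mul_le_mul_of_nonneg_left (hA ((N : ℝ) ^ β • (x i - x j))) hp.le
    linarith
  · have h2 : W ((N : ℝ) ^ β • (x i - x j)) = 0 := by
      apply hR
      rw [norm_smul, Real.norm_eq_abs, abs_of_pos (Real.rpow_pos_of_pos hN0 _)]
      rw [not_le] at h
      have h3 := mul_lt_mul_of_pos_left h (Real.rpow_pos_of_pos hN0 β)
      have h4 : (N : ℝ) ^ β * (R * (N : ℝ) ^ (-β)) = R := by
        rw [mul_left_comm, ← Real.rpow_add hN0, add_neg_cancel, Real.rpow_zero, mul_one]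
      rwa [h4] at h3
    rw [h2]
    simp

lemma vn_ok {V : E3 × E3 → ℝ} (hV : AdmV V) (N : ℕ) : PotOK (fun _ => 0) (Vn N V) := by
  refine ⟨measurable_const, ?_, fun _ => le_rfl, ?_, ⟨0, fun _ => le_rfl⟩, ?_⟩
  · unfold Vn
    exact (hV.meas.comp (measurable_const_smul (Real.sqrt N))).const_mul _
  · intro p
    have := hV.nonneg (Real.sqrt N • p)
    unfold Vn
    positivity
  · obtain ⟨M, hM⟩ := hV.bdd
    refine ⟨(N : ℝ) * M, fun x => ?_⟩
    exact mul_le_mul_of_nonneg_left (hM _) (by positivity)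

lemma wb_ok {W : E3 → ℝ} (hW : AdmA W) {V : E3 × E3 → ℝ} (hV : AdmV V) (β : ℝ) (N : ℕ) :
    PotOK (fun z => -(Wb β N W z)) (Vn N V) := by
  have h := vn_ok hV N
  have hp : (0 : ℝ) ≤ (N : ℝ) ^ (3 * β - 1) := Real.rpow_nonneg (Nat.cast_nonneg N) _
  refine ⟨?_, h.mv, ?_, h.nv, ?_, h.bv⟩
  · unfold Wb
    exact ((hW.meas.comp (measurable_const_smul ((N : ℝ) ^ β))).const_mul _).neg
  · intro x
    unfold Wb
    have := mul_nonpos_of_nonneg_of_nonpos hp (hW.nonpos ((N : ℝ) ^ β • x))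
    linarith
  · obtain ⟨M, hM⟩ := hW.bdd
    refine ⟨(N : ℝ) ^ (3 * β - 1) * M, fun x => ?_⟩
    unfold Wb
    have := mul_le_mul_of_nonneg_left (hM ((N : ℝ) ^ β • x)) hp
    linarith

lemma pairS_neg {N : ℕ} (w : E3 → ℝ) (x : Cfg N) : pairS (fun z => -(w z)) x = -pairS w x := by
  simp [pairS, Finset.sum_neg_distrib]

/-- number of pairs -/
lemma pairs_le {N : ℕ} (f : Fin N → Fin N → ℝ) (hf : ∀ i j, f i j ≤ 1) :
    ∑ i : Fin N, ∑ j ∈ Finset.Ioi i, f i j ≤ (N : ℝ) * N := by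
  calc ∑ i : Fin N, ∑ j ∈ Finset.Ioi i, f i j ≤ ∑ i : Fin N, ∑ j ∈ Finset.Ioi i, (1 : ℝ) :=
        Finset.sum_le_sum fun i _ => Finset.sum_le_sum fun j _ => hf i j
    _ ≤ ∑ _i : Fin N, (N : ℝ) := by
        refine Finset.sum_le_sum fun i _ => ?_
        rw [Finset.sum_const, nsmul_eq_mul, mul_one]
        have : (Finset.Ioi i).card ≤ N := by
          refine (Finset.card_le_univ _).trans ?_
          simp
        exact_mod_cast this
    _ = (N : ℝ) * N := by simp

/-- the energy density is integrable -/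
lemma int_g {W : E3 → ℝ} (hW : AdmA W) {V : E3 × E3 → ℝ} (hV : AdmV V) (β : ℝ) (N : ℕ)
    {F : Cfg N → ℂ} (hF : ContDiff ℝ 1 F) (hs : HasCompactSupport F) :
    Integrable (fun x : Cfg N => kin F x + (pairS (Wb β N W) x + tripS (Vn N V) x) * ‖F x‖ ^ 2) := by
  have hφ : Continuous (fun _ : E3 => (1 : ℝ)) := continuous_const
  have h1 := int_kin hφ hF hs
  have h2 := int_pair hφ hF.continuous hs (wb_ok hW hV β N)
  have h3 := int_trip hφ hF.continuous hs (wb_ok hW hV β N)
  refine ((h1.sub h2).add h3).congr (Eventually.of_forall fun x => ?_)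
  simp only [Pi.add_apply, Pi.sub_apply, wt_one, pairS_neg]
  ring

lemma int_F {N : ℕ} {F : Cfg N → ℂ} (hF : ContDiff ℝ 1 F) (hs : HasCompactSupport F) (c : ℝ) :
    Integrable (fun x : Cfg N => c * ‖F x‖ ^ 2) := by
  have h := int_wF (φ := fun _ : E3 => (1 : ℝ)) continuous_const hF.continuous hs
    (c := fun _ => c) continuous_const
  refine h.congr (Eventually.of_forall fun x => ?_)
  simp only [wt_one, one_mul]

lemma kin_nonneg {N : ℕ} (F : Cfg N → ℂ) (x : Cfg N) : 0 ≤ kin F x :=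
  Finset.sum_nonneg fun i _ => Pool.Agent.W891.TWB.gsq_nonneg F i x

lemma tripS_nonneg {N : ℕ} {v : E3 × E3 → ℝ} (hv : ∀ p, 0 ≤ v p) (x : Cfg N) : 0 ≤ tripS v x :=
  Finset.sum_nonneg fun i _ => Finset.sum_nonneg fun j _ => Finset.sum_nonneg fun k _ => hv _

theorem stab : S_T3 → S_ST1 → S_ST2 → S_PC → S_PART → S_STAB := by
  intro hT3 hST1 hST2 hPC hPART β hβ hβ' W V hW hV hV0
  classical
  obtain ⟨c, s0, hc, hs0, hT3⟩ := hT3 V hV hV0
  obtain ⟨A, hA⟩ := hW.bdd
  have hA0 : 0 ≤ A := by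
    have h1 := hA 0
    have h2 := hW.nonpos 0
    linarith
  obtain ⟨R, hR0, hR⟩ : ∃ R : ℝ, 0 < R ∧ ∀ x, R < ‖x‖ → W x = 0 := by
    obtain ⟨R, hR⟩ := hW.supp.isCompact.isBounded.subset_closedBall (0 : E3)
    refine ⟨max R 1, lt_of_lt_of_le one_pos (le_max_right _ _), fun x hx => ?_⟩
    apply image_eq_zero_of_notMem_tsupport
    intro h
    have h1 := hR h
    rw [mem_closedBall, dist_zero_right] at h1
    exact absurd (h1.trans (le_max_left R 1)) (not_le.2 hx)
  obtain ⟨D0, hD0, hPC⟩ := hPC R hR0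
  obtain ⟨C, N0, hC, hN0, hST2⟩ := hST2 β c s0 (A * D0 + 1) hβ hβ' hc hs0 (by positivity)
  refine ⟨C + A * N0, by positivity, fun N hN F hF hFs => ?_⟩
  have hN' : (0 : ℝ) < N := by exact_mod_cast hN
  have hp : (0 : ℝ) < (N : ℝ) ^ (3 * β - 1) := Real.rpow_pos_of_pos hN' _
  have hv := vn_ok hV N
  have hgi := int_g hW hV β N hF hFs
  rw [← integral_const_mul]
  by_cases hlarge : N0 ≤ N
  · -- large `N`
    have hl : (0 : ℝ) < (N : ℝ) ^ (-β) := Real.rpow_pos_of_pos hN' _
    have hstep : ∫ x, -(C * N) * ‖F x‖ ^ 2 ≤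
        ∫ x, (kin F x + (pairS (Wb β N W) x + tripS (Vn N V) x) * ‖F x‖ ^ 2) := by
      refine hPART _ hl N _ _ (int_F hF hFs _) hgi fun k => ?_
      obtain ⟨I, hI⟩ : ∃ I : ℝ, I = ∫ x in reg ((N : ℝ) ^ (-β)) k, ‖F x‖ ^ 2 := ⟨_, rfl⟩
      have hI0 : 0 ≤ I := by
        rw [hI]
        exact integral_nonneg fun x => sq_nonneg _
      set J : (Fin 3 → ℤ) → Finset (Fin N) := fun α => Finset.univ.filter (fun i => k i = α)
        with hJ
      -- one box
      have hbox : ∀ α : Fin 3 → ℤ, (A * D0 + 1) * ((J α).card : ℝ) ^ 2 *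
          (N : ℝ) ^ (3 * β - 1) * I ≤ C * (J α).card * I +
            EJ (fun _ => 1) (fun _ => 0) (Vn N V) ((N : ℝ) ^ (-β)) k F (J α) := by
        intro α
        have hE := EJ_nonneg (φ := fun _ => 1) hv ((N : ℝ) ^ (-β)) k (F := F) (J α)
        have hcard : (J α).card ≤ N := by
          refine (Finset.card_le_univ _).trans ?_
          simp
        rcases hST2 N hlarge (J α).card hcard with h | ⟨M, hM1, hM4, hMs, hMe⟩
        · have := mul_le_mul_of_nonneg_right h hI0
          linarith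
        · have hM0 : (0 : ℝ) < M := by exact_mod_cast hM1
          have h1 := hST1 (Vn N V) hv ((N : ℝ) ^ (-β)) M
            (c / ((N : ℝ) ^ 2 * ((N : ℝ) ^ (-β) / M) ^ 6)) hl hM1 (by positivity)
            (fun a => hT3 N ((N : ℝ) ^ (-β) / M) hN (by positivity) hMs a) N (J α) k α
            (fun i hi => (Finset.mem_filter.1 hi).2) hM4 F hF
          rw [← EJ_eq, ← hI] at h1
          have h2 := mul_le_mul_of_nonneg_right hMe hI0
          have h3 : 0 ≤ C * (J α).card * I := by positivity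
          linarith
      have hsum := Finset.sum_le_sum (fun α (_ : α ∈ Finset.univ.image k) => hbox α)
      rw [Finset.sum_add_distrib, ← Finset.sum_mul, ← Finset.sum_mul, ← Finset.mul_sum,
        ← Finset.sum_mul, ← Finset.mul_sum] at hsum
      have hcN : ∑ α ∈ Finset.univ.image k, ((J α).card : ℝ) = N := by
        have h1 : (Finset.univ : Finset (Fin N)).card =
            ∑ α ∈ Finset.univ.image k, (J α).card :=
          Finset.card_eq_sum_card_image k Finset.univ
        rw [Finset.card_univ, Fintype.card_fin] at h1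
        rw [← Nat.cast_sum, ← h1]
      rw [hcN] at hsum
      have hsup := EJ_sum hv ((N : ℝ) ^ (-β)) k hF
      obtain ⟨S, hS⟩ : ∃ S : ℝ, S = ∑ α ∈ Finset.univ.image k, ((J α).card : ℝ) ^ 2 := ⟨_, rfl⟩
      rw [← hS] at hsum
      have hS0 : 0 ≤ S := by
        rw [hS]
        exact Finset.sum_nonneg fun _ _ => sq_nonneg _
      -- lower bound for the density
      have hint1 : IntegrableOn (fun x => kinJ Finset.univ F x +
          tripJ Finset.univ (Vn N V) x * ‖F x‖ ^ 2) (reg ((N : ℝ) ^ (-β)) k) := by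
        have h := EJ_int (φ := fun _ => 1) continuous_const hv ((N : ℝ) ^ (-β)) k hF Finset.univ
        refine h.congr_fun (fun x _ => ?_) (meas_reg _ _)
        simp only [eJ, wt_one, pairJ_zero]
        ring
      have hlow : ∫ x in reg ((N : ℝ) ^ (-β)) k, ((kinJ Finset.univ F x +
          tripJ Finset.univ (Vn N V) x * ‖F x‖ ^ 2) -
            (A * D0 + 1) * S * (N : ℝ) ^ (3 * β - 1) * ‖F x‖ ^ 2) ≤
          ∫ x in reg ((N : ℝ) ^ (-β)) k, (kin F x + (pairS (Wb β N W) x + tripS (Vn N V) x) *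
            ‖F x‖ ^ 2) := by
        refine setIntegral_mono_on (hint1.sub (int_F hF hFs _).integrableOn) hgi.integrableOn
          (meas_reg _ _) fun x hx => ?_
        have h1 : kinJ Finset.univ F x + tripJ Finset.univ (Vn N V) x * ‖F x‖ ^ 2 =
            kin F x + tripS (Vn N V) x * ‖F x‖ ^ 2 := by
          have h := eJ_univ (fun _ => 0) (Vn N V) F x
          simp only [eJ, pairJ_zero, pairS_zero, zero_add] at h
          exact h
        have h2 := pair_low (β := β) hN hA0 hA hR x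
        have h3 := hPC ((N : ℝ) ^ (-β)) hl N k x hx
        have h4 : -((A * D0 + 1) * S * (N : ℝ) ^ (3 * β - 1)) ≤ pairS (Wb β N W) x := by
          refine le_trans ?_ h2
          rw [neg_le_neg_iff]
          have hAp : 0 ≤ A * (N : ℝ) ^ (3 * β - 1) := by positivity
          have h5 := mul_le_mul_of_nonneg_left h3 hAp
          refine h5.trans ?_
          rw [hS] at hS0 ⊢
          have h6 : 0 ≤ (∑ α ∈ Finset.univ.image k, ((J α).card : ℝ) ^ 2) *
            (N : ℝ) ^ (3 * β - 1) := mul_nonneg hS0 hp.le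
          calc A * (N : ℝ) ^ (3 * β - 1) * (D0 * ∑ α ∈ Finset.univ.image k,
                ((Finset.univ.filter (fun i => k i = α)).card : ℝ) ^ 2)
              = A * D0 * ((∑ α ∈ Finset.univ.image k, ((J α).card : ℝ) ^ 2) *
                (N : ℝ) ^ (3 * β - 1)) := by ring
            _ ≤ _ := by linarith
        have h7 := mul_le_mul_of_nonneg_right h4 (sq_nonneg ‖F x‖)
        rw [h1]
        nlinarith
      refine le_trans ?_ hlow
      have hsub := integral_sub (μ := volume.restrict (reg ((N : ℝ) ^ (-β)) k)) hint1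
        (int_F hF hFs ((A * D0 + 1) * S * (N : ℝ) ^ (3 * β - 1))).integrableOn
      rw [hsub, integral_const_mul, integral_const_mul, ← hI, ← EJ_eq]
      linarith
    refine le_trans ?_ hstep
    refine integral_mono (int_F hF hFs _) (int_F hF hFs _) fun x => ?_
    have h1 : 0 ≤ A * N0 * N * ‖F x‖ ^ 2 := by positivity
    change -((C + A * N0) * N) * ‖F x‖ ^ 2 ≤ -(C * N) * ‖F x‖ ^ 2
    linarith
  · -- small `N`
    refine integral_mono (int_F hF hFs _) hgi fun x => ?_
    change -((C + A * N0) * N) * ‖F x‖ ^ 2 ≤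
      kin F x + (pairS (Wb β N W) x + tripS (Vn N V) x) * ‖F x‖ ^ 2
    rw [not_le] at hlarge
    have h1 := pair_low (β := β) hN hA0 hA hR x
    have h2 := pairs_le (N := N) (fun i j => if ‖x i - x j‖ ≤ R * (N : ℝ) ^ (-β) then (1 : ℝ)
      else 0) (fun i j => by split_ifs <;> norm_num)
    have h3 : (N : ℝ) ^ (3 * β - 1) ≤ 1 :=
      Real.rpow_le_one_of_one_le_of_nonpos (by exact_mod_cast hN) (by linarith)
    have h4 : A * (N : ℝ) ^ (3 * β - 1) * (∑ i : Fin N, ∑ j ∈ Finset.Ioi i,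
        (if ‖x i - x j‖ ≤ R * (N : ℝ) ^ (-β) then (1 : ℝ) else 0)) ≤ A * N0 * N := by
      have hle : (N : ℝ) ≤ N0 := by exact_mod_cast hlarge.le
      calc A * (N : ℝ) ^ (3 * β - 1) * (∑ i : Fin N, ∑ j ∈ Finset.Ioi i,
            (if ‖x i - x j‖ ≤ R * (N : ℝ) ^ (-β) then (1 : ℝ) else 0))
          ≤ A * (N : ℝ) ^ (3 * β - 1) * ((N : ℝ) * N) := by gcongr
        _ ≤ A * 1 * (N0 * N) := by gcongr
        _ = A * N0 * N := by ring
    have h5 : -(A * N0 * N) ≤ pairS (Wb β N W) x := by linarith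
    have h6 := kin_nonneg F x
    have h7 := tripS_nonneg hv.nv x
    have h8 := mul_le_mul_of_nonneg_right h5 (sq_nonneg ‖F x‖)
    have h9 := mul_nonneg h7 (sq_nonneg ‖F x‖)
    have h10 : 0 ≤ C * N * ‖F x‖ ^ 2 := by positivity
    nlinarith

end Pool.Agent.W699.STB
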